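import Mathlib
import Pool.Agent.H476R2.Pal.BV2

/-!
# An explicit upper bound for the number of palindromic primes

There are `9 * 10 ^ L` decimal palindromes with `2 L + 1` digits, and `4 * 10 ^ L` of them are prime
to `10`, so about `5 * 10 ^ L / (L log 10)` of them are expected to be prime.  We show that, for
every `ε > 0` and all large `L`, the number of primes among them is at most `20 / 3 + ε` times this
number.

The proof (Selberg sieve, level of distribution `10 ^ (3 L / 5)`) is in the starting files
`Pool/Agent/H476R2/Pal/BV2.lean` and `Pool/Agent/H329R2/PalQ12.lean`, whose theorem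
`primes_upper2` had not been handed in.
-/

set_option autoImplicit false

namespace Pool.Agent.Results.MP_540de1_nt.PrimeUpperBound

open Finset Filter

/-- the palindromic primes with exactly `2 L + 1` decimal digits -/
def palPrimes (L : ℕ) : Finset ℕ :=
  (range (10 ^ (2 * L + 1))).filter (fun n => 10 ^ (2 * L) ≤ n ∧
    (Nat.digits 10 n).reverse = Nat.digits 10 n ∧ n.Prime)

/-- For every `ε > 0` and all large `L` the number of palindromic primes with `2 L + 1` digits is at
most `(20 / 3 + ε) * 5 * 10 ^ L / (L log 10)`. -/
theorem result (ε : ℝ) (hε : 0 < ε) : ∀ᶠ L : ℕ in atTop,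
    ((palPrimes L).card : ℝ) ≤ (20 / 3 + ε) * (5 * 10 ^ L / (L * Real.log 10)) :=
  Pool.Agent.H476R2.Pal.primes_upper2 ε hε

end Pool.Agent.Results.MP_540de1_nt.PrimeUpperBound
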